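import Pool.Agent.Y84.PC.H

/-!
The Bass trace conjecture over commutative domains of characteristic zero for groups in which the
centralisers of the elements of infinite order are residually finite, and for groups locally
embeddable into finite groups.

Proof.  Elements of finite order are classical.  Let `g` have infinite order, let `E` be an
idempotent matrix over `F[G]`, `F` an ultrametric field, with coefficients of norm at most `P`, and
`π` a homomorphism from the centraliser of `g` to a finite group `Q` such that `p` and `p ^ k` divide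
the order `n` of `c = π(g)`, `P ^ 2 |p| ^ k ≤ 1`.  Let `X` be the conjugacy class of `g` and choose
`s(x)` with `x = s(x) g s(x)⁻¹`.  The map `ρ(h, x) = π(s(x)⁻¹ h s(h⁻¹ x h))` is a cocycle,
`ρ(hk, x) = ρ(h, x) ρ(k, h⁻¹ x h)`, with `ρ(x, x) = c`.  Let `U` be the skew group ring of `G` over the
ring of all functions on `G`.  The elements `∑ E_h 1_{ρ(h, ·) = q} h`, `q ∈ Q`, are the coefficients of
an idempotent matrix over `U[Q]`, and the functional `∑ φ_h h ↦ ∑_{x ∈ X} φ_x(x)` is a trace on `U`
whose value at the coefficient of `q` is `τ_E(g)` for `q = c` and `0` for `q ≠ c`.  Now `U[Q]` acts on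
a free module over `U[⟨c⟩]`.  Replacing `c` by a variable `x` we obtain a matrix `E(x)` over `U[x]` with
`E(x) ^ 2 - E(x)` divisible by `x ^ n - 1`.  On the disc `x = ζ (1 + (ω - 1) Y)`, `ζ ^ n = 1`, `ω` a
primitive `p`-th root of unity, the norm of `E ^ 2 - E` is at most `|ω - 1| < 1`.  The Newton
iteration `E ↦ 3 E ^ 2 - 2 E ^ 3` keeps the norm of `E`, squares the norm of `E ^ 2 - E`, multiplies the
degree in `Y` by `3` and does not change the values at `Y = 0` and `Y = 1`.  The derivative of the
trace of an approximate idempotent is small.  Hence the traces at `ζ` and `ζ ω` agree, for all `ζ`, so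
`τ_E(g) = 0`.  Maps to groups `H` which are multiplicative only on a finite set give an idempotent
matrix over `F[H × G]`.
-/

set_option autoImplicit false

namespace Pool.Agent.Results.MP_7903c7_al.FiniteQuotientsOfCentralisers

open Pool.Agent.Y84.PT (LEF RF)
open Pool.Agent.Y84.PC (LocCen)
open Pool.Agent.H26R2.Bass (Good)

universe u v w

/-- The Bass trace conjecture for the ring `R` and the group `G`. -/
def BassFor (R : Type v) [CommRing R] (G : Type u) [Group G] : Prop :=
  ∀ (k : ℕ) (A : Matrix (Fin k) (Fin k) (MonoidAlgebra R G)), A * A = A →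
    ∀ g : G, ¬ IsUnit ((orderOf g : ℕ) : R) →
      ∑ i : Fin k, ∑ᶠ (h : G) (_ : IsConj h g), (A i i).coeff h = 0

/-- Let `R` be a commutative domain of characteristic zero and `G` a group.
(1) The Bass trace conjecture holds for `R` and `G` if every element `h` of infinite order of every
finitely generated subgroup `H` of `G` satisfies `LocCen h` in `H` or is good in `H`.
(2) The Bass trace conjecture holds for `R` and `G` if the centralisers of all elements of infinite
order of `G` are residually finite.
(3) The Bass trace conjecture holds for `R` and `G` if `G` is locally embeddable into finite groups,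
for example if all finitely generated subgroups of `G` are residually finite.
(4) For every idempotent matrix `A` over `R[G]` and every element `g` of `G` with `LocCen g`,
`τ_A(g) = 0`.
(5) Let `K` be a field of characteristic zero, `A` an idempotent matrix over `K[G]`,
`N` a positive integer such that `N` times every coefficient of `A` is an algebraic integer, `g` an
element of `G` and `π` a homomorphism from the centraliser of `g` to a finite group with
`π(g) ^ (N ^ 2) ≠ 1`. Then `τ_A(g) = 0`. -/
theorem result (R : Type v) [CommRing R] [IsDomain R] [CharZero R] (G : Type u) [Group G] :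
    ((∀ H : Subgroup G, H.FG → ∀ h : H, ¬ IsOfFinOrder h → LocCen h ∨ Good R h) →
      BassFor R G) ∧
    ((∀ g : G, ¬ IsOfFinOrder g → RF (Subgroup.centralizer ({g} : Set G))) → BassFor R G) ∧
    ((LEF G ∨ ∀ H : Subgroup G, H.FG → RF H) → BassFor R G) ∧
    (∀ (k : ℕ) (A : Matrix (Fin k) (Fin k) (MonoidAlgebra R G)), A * A = A →
      ∀ g : G, LocCen g → ∑ i : Fin k, ∑ᶠ (h : G) (_ : IsConj h g), (A i i).coeff h = 0) ∧
    (∀ (K : Type v) [Field K] [CharZero K] (k : ℕ)
      (A : Matrix (Fin k) (Fin k) (MonoidAlgebra K G)), A * A = A →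
      ∀ N : ℕ, N ≠ 0 → (∀ i j h, IsIntegral ℤ ((N : K) * (A i j).coeff h)) →
      ∀ (g : G) (Q : Type w) [Group Q] [Finite Q]
        (π : Subgroup.centralizer ({g} : Set G) →* Q),
        π ⟨g, Subgroup.mem_centralizer_singleton_iff.2 rfl⟩ ^ (N ^ 2) ≠ 1 →
        ∑ i : Fin k, ∑ᶠ (h : G) (_ : IsConj h g), (A i i).coeff h = 0) := by
  classical
  have hfin : ∀ (k : ℕ) (A : Matrix (Fin k) (Fin k) (MonoidAlgebra R G)), A * A = A →
      (∀ g : G, ¬ IsOfFinOrder g → LocCen g) → ∀ g : G, ¬ IsUnit ((orderOf g : ℕ) : R) →
      ∑ i : Fin k, ∑ᶠ (h : G) (_ : IsConj h g), (A i i).coeff h = 0 := by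
    intro k A hA h g hg
    by_cases h1 : IsOfFinOrder g
    · exact Pool.Agent.Y84.PG.tau_zero_of_finite A hA h1 hg
    · exact Pool.Agent.Y84.PC.tau_zero_of_locCen A hA (h g h1)
  refine ⟨?_, ?_, ?_, ?_, ?_⟩
  · intro hG k A hA g hg
    refine Pool.Agent.Y84.PC.bass_local (fun H hH h hh => ?_) A hA g hg
    rcases hG H hH h hh with h1 | h1
    · exact Or.inl h1
    · right
      refine ⟨⊥, inferInstance, ?_⟩
      exact Pool.Agent.H26R2.Bass.good_of_hom (QuotientGroup.quotientBot (G := H)).toMonoidHom
        (QuotientGroup.mk' ⊥ h) h1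
  · intro hG k A hA g hg
    refine hfin k A hA (fun x hx => ?_) g hg
    apply Pool.Agent.Y84.PC.locCen_of_centralizer
    intro m hm
    apply hG x hx
    intro h3
    apply hx
    rw [isOfFinOrder_iff_pow_eq_one]
    exact ⟨m, Nat.pos_of_ne_zero hm, congrArg Subtype.val h3⟩
  · intro hG k A hA g hg
    have h3 : LEF G := by
      rcases hG with h4 | h4
      · exact h4
      · exact Pool.Agent.Y84.PT.lef_of_local
          (fun H hH => Pool.Agent.Y84.PT.lef_of_rf (h4 H hH))
    exact hfin k A hA (fun x hx => Pool.Agent.Y84.PC.locCen_of_locInf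
      (Pool.Agent.Y84.PG.locInf_of_lef h3 hx)) g hg
  · intro k A hA g hg
    exact Pool.Agent.Y84.PC.tau_zero_of_locCen A hA hg
  · intro K _ _ k A hA N hN hint g Q _ _ π hc
    exact Pool.Agent.Y84.PC.tau_zero_of_integral A hA hN hint π hc

end Pool.Agent.Results.MP_7903c7_al.FiniteQuotientsOfCentralisers
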