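import Pool.Agent.Y75.BF.Thm

set_option autoImplicit false

/-!
The Bass trace conjecture for the groups `F / [N, N]`, `N` an arbitrary normal subgroup of a free
group `F`, and for groups detected by such groups.
-/

namespace Pool.Agent.Results.MP_7903c7_al.RelationGroups

open Pool.Agent.Y75.BF (Detected InfOrd)

universe u v w

/-- The Bass trace conjecture for the domain `R` and the group `G`. -/
def BassFor (R : Type u) [CommRing R] [IsDomain R] (G : Type v) [Group G] : Prop :=
  ∀ (n : ℕ) (A : Matrix (Fin n) (Fin n) (MonoidAlgebra R G)), A * A = A →
    ∀ g : G, ¬ IsUnit ((orderOf g : ℕ) : R) →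
      ∑ i : Fin n, ∑ᶠ (h : G) (_ : IsConj h g), (A i i).coeff h = 0

/-- Let `R` be any commutative domain, `H` a group and `K` a normal subgroup of `H` such that `H / K`
satisfies the Bass trace conjecture over `R`. Suppose that for all `h` in `H` of infinite order and
all `k` in `K` the elements `h` and `h k` are conjugate in `H`, or one of them is detected: for every
finitely generated subgroup `H0` containing it there is a homomorphism `s` from `H0` to a group
`P / [N, N]` for which its image has infinite order, where `P` is a free product of a free group and
of groups `T i`, and `N` is any normal subgroup of `P` which meets all `T i` trivially, such that no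
element of infinite order of a factor `T i` is conjugate to a proper power modulo `N`. (The `T i` may
be arbitrary torsion groups, and there may be no `T i`.) Then `H` satisfies the conjecture over `R`.
Two special cases are also stated. `K = H`: the conjecture holds for `H` if all elements of infinite
order are detected. And, for every free group `F` and every normal subgroup `N` of `F`, the
conjecture for a group `T` (for example `T = 1`) implies the conjecture for `T × F / [N, N]`. -/
theorem result (R : Type u) [CommRing R] [IsDomain R] :
    (∀ (H : Type w) [Group H] (K : Subgroup H) [K.Normal],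
      (∀ h k : H, k ∈ K → InfOrd h →
        IsConj h (h * k) ∨ Detected.{v} H h ∨ Detected.{v} H (h * k)) →
      BassFor R (H ⧸ K) → BassFor R H) ∧
    (∀ (H : Type w) [Group H],
      (∀ h : H, InfOrd h → Detected.{v} H h) → BassFor R H) ∧
    (∀ (X : Type v) (N : Subgroup (FreeGroup X)) [N.Normal] (T : Type w) [Group T],
      BassFor R T → BassFor R (T × (FreeGroup X ⧸ ⁅N, N⁆))) := by
  refine ⟨?_, ?_, ?_⟩
  · intro H _ K _ hK hQ
    apply Pool.Agent.Y75.BF.bass_ext.{u, v, w} R H K _ hQ
    intro h k hk hh h1 h2
    rcases hK h k hk hh with h3 | h3 | h3
    · exact h3
    · exact absurd h3 h1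
    · exact absurd h3 h2
  · intro H _ hH
    exact Pool.Agent.Y75.BF.bass_detect.{u, v, w} R H hH
  · intro X N _ T _ hT
    exact Pool.Agent.Y75.BF.bass_prod R X N T hT

end Pool.Agent.Results.MP_7903c7_al.RelationGroups
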