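import Pool.Agent.TH6.PF.BassT

set_option autoImplicit false

/-! The Bass trace conjecture, over every commutative domain and for every group, for all finitely
generated projective modules that have a presentation matrix whose support pattern has
`ℓ²`-operator norm less than `3 / √2`. -/

namespace Pool.Agent.Results.MP_7903c7_al.ThinPresentations

open TH57.Thr TH6.PF Matrix

/-- `P = (RG)^k · A` with `A` idempotent is isomorphic to `(RG)^n` modulo the rows of the `m × n`
matrix `M`, and the support pattern of `M` (the matrix over `ℤG` with all nonzero coefficients of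
`M` replaced by `1`) has norm at most `c < 3 / √2` as an operator `ℓ²(G)^m → ℓ²(G)^n`. -/
theorem result (R : Type) [CommRing R] [IsDomain R] (G : Type) [Group G] (k m n : ℕ)
    (A : Matrix (Fin k) (Fin k) (MonoidAlgebra R G)) (hA : A * A = A)
    (M : Matrix (Fin m) (Fin n) (MonoidAlgebra R G))
    (c : ℝ) (hc0 : 0 < c) (hc : c ^ 2 < 9 / 2) (hM : ThinLE M c)
    (φ : LinearMap.range A.vecMulLinear ≃ₗ[MonoidAlgebra R G]
      ((Fin n → MonoidAlgebra R G) ⧸ LinearMap.range M.vecMulLinear))
    (g : G) (hg : ¬ IsUnit ((orderOf g : ℕ) : R)) :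
    ∑ i : Fin k, ∑ᶠ (h : G) (_ : IsConj h g), (A i i).coeff h = 0 :=
  bass_thin_module c hc0 hc A hA M hM φ g hg

end Pool.Agent.Results.MP_7903c7_al.ThinPresentations
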